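import Pool.Agent.N303.LS.Fin5
import Pool.Agent.N764.LS.PD
import Pool.Agent.N562.LS.BW
import Pool.Agent.N170.LS.LLG
import Pool.Agent.N362.LS.ENA
import Pool.Agent.N914.LS.ENB
import Pool.Agent.N655.LS.EN
import Pool.Agent.N287.LS.YOU

set_option autoImplicit false

/-!
# The wave equation on `L^p` for data with spectrum near a `Λ(p)` set

Let `p ≥ 2`, `d` arbitrary, and let `S ⊂ ℤ^d` be a `Λ(p)` set in the sense of Rudin: the `L^p` norm
on the torus of a trigonometric polynomial with frequencies in `S` is at most `Λ` times its `L²`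
norm. For all Schwartz data whose Fourier transforms are supported in `S + [-1/4, 1/4]^d` and for
`0 ≤ t ≤ 2`, with a constant `C` which depends on `d` and `p` only,

`‖u(t)‖_p^p ≤ C Λ^p (‖u₀‖_p^p + ‖g₀‖_p^p + ∑_j ‖g_j‖_p^p)` if `u₁ = g₀ + ∑_j ∂_j g_j`,

so the right side is the norm of `u₀` in `L^p` and of `u₁` in `W^{-1,p}`. There is no loss of
derivatives. The right side of Q1 has the norms of `L^p_s` and `L^p_{s-1}` with `s = s_p - σ`, which
is positive for `p ≥ 2d/(d-1)` and `σ < 1/p`. So this contains the estimate of Q1, in every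
dimension and for all `p ≥ 2d/(d-1)` and `σ < 1/p`, for all data with spectrum in
`S + [-1/4, 1/4]^d`.

Every finite set of `N` points is a `Λ(p)` set with `Λ = N^(1/2 - 1/p)`; for the sets `B_h` (all
sums of `h` elements are different up to order) and `p = 2h` the constant depends on `h` only; and
by a theorem of Bourgain every set of `N` points of `ℤ^d` has a subset of `N^(2/p)` points which is
a `Λ(p)` set with a constant depending on `p` only. (These examples are not used.)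

Proof: in a unit ball around `z` the function `u(t)` is a superposition of modulations of
trigonometric polynomials with frequencies in `S` whose coefficients have an `ℓ²` norm which is at
most the square root of the local energy of `u(t)` at `z` (Bessel's inequality). So its `L^p` norm
in the ball is at most `C Λ` times this, and the local energy of `u(t)` is at most a constant times
that of the data (weighted energy estimate). Young's inequality.

Co-authors of the parts: helper170, helper262, helper287, helper362, helper492, helper562,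
helper655, helper764, helper914.
-/

open MeasureTheory
open scoped ENNReal FourierTransform RealInnerProductSpace SchwartzMap

namespace Pool.Agent.Results.MP_ee74d2_an.LambdaSetSpectra

/-- `ℝ^d` -/
abbrev E (d : ℕ) : Type := EuclideanSpace ℝ (Fin d)

/-- The solution `u(t, x)` of the wave equation on `ℝ^d` with `u(0) = u₀`, `∂ₜu(0) = u₁`: the
inverse Fourier transform of `cos(2πt|ξ|) u₀^(ξ) + sin(2πt|ξ|)/(2π|ξ|) u₁^(ξ)`. -/
noncomputable def wave {d : ℕ} (u₀ u₁ : 𝓢(E d, ℂ)) (t : ℝ) (x : E d) : ℂ :=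
  ∫ ξ : E d, Complex.exp (((2 * Real.pi * ⟪x, ξ⟫ : ℝ) : ℂ) * Complex.I) *
    (((Real.cos (2 * Real.pi * t * ‖ξ‖) : ℝ) : ℂ) * 𝓕 (u₀ : E d → ℂ) ξ +
      ((Real.sin (2 * Real.pi * t * ‖ξ‖) / (2 * Real.pi * ‖ξ‖) : ℝ) : ℂ) * 𝓕 (u₁ : E d → ℂ) ξ)

/-- `S` is a `Λ(p)` set with constant `Λ`: for all finite subsets `T` of `S` and all coefficients,
`∫_{[0,1)^d} |∑_{m ∈ T} c_m exp(2πi x·m)|^p dx ≤ Λ^p (∑_{m ∈ T} |c_m|²)^(p/2)`. -/
def IsLambdaSet {d : ℕ} (p Λ : ℝ) (S : Set (Fin d → ℤ)) : Prop :=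
  ∀ T : Finset (Fin d → ℤ), (T : Set (Fin d → ℤ)) ⊆ S → ∀ c : (Fin d → ℤ) → ℂ,
    ∫⁻ x in {x : E d | ∀ i, x i ∈ Set.Ico (0 : ℝ) 1}, ‖∑ m ∈ T, c m *
      Complex.exp (((2 * Real.pi * ⟪x, WithLp.toLp 2 fun i => (m i : ℝ)⟫ : ℝ) : ℂ) *
        Complex.I)‖ₑ ^ p ≤
      ENNReal.ofReal (Λ ^ p) * (∑ m ∈ T, ‖c m‖ₑ ^ (2 : ℝ)) ^ (p / 2)

/-- The Fourier transform of `f` vanishes outside `S + [-1/4, 1/4]^d`. -/
def SpectrumNear {d : ℕ} (S : Set (Fin d → ℤ)) (f : 𝓢(E d, ℂ)) : Prop :=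
  ∀ ξ : E d, 𝓕 (f : E d → ℂ) ξ ≠ 0 → ∃ m ∈ S, ∀ i, |ξ i - m i| ≤ 1 / 4

/-- **Fixed-time estimates without loss of derivatives, hence the estimate of Q1, for all data with
spectrum near a `Λ(p)` set.** -/
theorem result (d : ℕ) (p : ℝ) (hp : 2 ≤ p) :
    ∃ C : ℝ, 0 < C ∧ ∀ (S : Set (Fin d → ℤ)) (Λ : ℝ), 0 ≤ Λ → IsLambdaSet p Λ S →
      ∀ (u₀ u₁ g₀ : 𝓢(E d, ℂ)) (g : Fin d → 𝓢(E d, ℂ)), SpectrumNear S u₀ → SpectrumNear S u₁ →
      (∀ x, u₁ x = g₀ x + ∑ j, lineDeriv ℝ (g j) x (EuclideanSpace.single j (1 : ℝ))) →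
      ∀ t : ℝ, 0 ≤ t → t ≤ 2 →
        ∫⁻ x : E d, ‖wave u₀ u₁ t x‖ₑ ^ p ≤ ENNReal.ofReal (C * Λ ^ p) *
          ((∫⁻ x : E d, ‖u₀ x‖ₑ ^ p) + (∫⁻ x : E d, ‖g₀ x‖ₑ ^ p) +
            ∑ j, ∫⁻ x : E d, ‖g j x‖ₑ ^ p) := by
  have hEN := Pool.Agent.N655.LS.t_en Pool.Agent.N362.LS.t_ena Pool.Agent.N303.LS.t_enb
  have hLLG := Pool.Agent.N170.LS.t_llg Pool.Agent.N764.LS.PD.t_pd Pool.Agent.N562.LS.t_bw
  exact Pool.Agent.N303.LS.fin5 hLLG hEN Pool.Agent.N287.LS.t_you d p hp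

end Pool.Agent.Results.MP_ee74d2_an.LambdaSetSpectra
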