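import Pool.Agent.N303.SH.K9

set_option autoImplicit false

/-!
# Stein's restriction conjecture for densities with sparse spherical harmonic expansions

`n ≥ 3`, `0 ≤ δ < 1/2`, `c > 0`, `q > 2 + 2/((n-1)(1-δ))`. If all the degrees `k < k'` in the
spherical harmonic expansion of `h ∈ L^q(S^(n-1))` satisfy `k' - k ≥ c k^(1-δ)`, then
`‖(h dσ)^‖_{L^q(ℝ^n)} ≤ C ‖h‖_{L^q(σ)}` with `C` depending on `n, δ, c, q` only. The bound holds
also for the superpositions `∑ e^{i⟨η_j, x⟩} h_j(x)`, `∑ ‖h_j‖_q < ∞`. All the exponents are below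
the Stein-Tomas exponent `2(n+1)/(n-1)` near the left endpoint, and `δ = 0` (lacunary expansions)
gives the full conjectured range `q > 2n/(n-1)`.
-/

open MeasureTheory Metric Set
open scoped ENNReal RealInnerProductSpace NNReal

namespace Pool.Agent.Results.MP_6cbfb8_an.SparseHarmonics

/-- `ℝ^n` -/
abbrev E (n : ℕ) := EuclideanSpace ℝ (Fin n)

/-- the unit sphere of `ℝ^n` -/
abbrev Sph (n : ℕ) := sphere (0 : E n) 1

/-- surface measure on the unit sphere -/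
noncomputable def sigma (n : ℕ) : Measure (Sph n) := (volume : Measure (E n)).toSphere

/-- the Fourier transform of `g dσ` -/
noncomputable def ft {n : ℕ} (g : Sph n → ℂ) (ξ : E n) : ℂ :=
  ∫ x, Complex.exp (-(2 * Real.pi * ⟪(x : E n), ξ⟫ : ℝ) * Complex.I) * g x ∂(sigma n)

/-- the value of a polynomial at a point of the sphere -/
noncomputable def ev {n : ℕ} (P : MvPolynomial (Fin n) ℝ) (x : Sph n) : ℝ :=
  MvPolynomial.eval (fun i => (x : E n) i) P

/-- `P` restricts to a spherical harmonic of degree `k`: its degree is at most `k` and on the sphere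
it is orthogonal to all the polynomials of degree less than `k` -/
def IsHarmonic {n : ℕ} (k : ℕ) (P : MvPolynomial (Fin n) ℝ) : Prop :=
  P.totalDegree ≤ k ∧ ∀ Q : MvPolynomial (Fin n) ℝ, Q.totalDegree < k →
    ∫ x, ev P x * ev Q x ∂(sigma n) = 0

/-- only spherical harmonics with degrees in `K` occur in the expansion of `h` -/
def DegreesIn {n : ℕ} (K : Set ℕ) (h : Sph n → ℂ) : Prop :=
  ∀ k ∉ K, ∀ P : MvPolynomial (Fin n) ℝ, IsHarmonic k P → ∫ x, (ev P x : ℂ) * h x ∂(sigma n) = 0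

/-- the gap after `k ∈ K` is at least `c k^(1-δ)` -/
def Gaps (δ c : ℝ) (K : Set ℕ) : Prop :=
  ∀ k ∈ K, ∀ k' ∈ K, k < k' → c * (k : ℝ) ^ (1 - δ) ≤ (k' : ℝ) - k

theorem result (n : ℕ) (hn : 3 ≤ n) (δ c q : ℝ) (hδ0 : 0 ≤ δ) (hδ1 : δ < 1 / 2) (hc : 0 < c)
    (hq : 2 + 2 / (((n : ℝ) - 1) * (1 - δ)) < q) :
    ∃ C : ℝ≥0, ∀ (K : ℕ → Set ℕ) (η : ℕ → E n) (h : ℕ → Sph n → ℂ),
      (∀ j, Gaps δ c (K j)) → (∀ j, MemLp (h j) (ENNReal.ofReal q) (sigma n)) →
      (∀ j, DegreesIn (K j) (h j)) → ∑' j, eLpNorm (h j) (ENNReal.ofReal q) (sigma n) ≠ ∞ →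
      Continuous (ft fun x => ∑' j, Complex.exp ((⟪η j, (x : E n)⟫ : ℝ) * Complex.I) * h j x) ∧
      eLpNorm (ft fun x => ∑' j, Complex.exp ((⟪η j, (x : E n)⟫ : ℝ) * Complex.I) * h j x)
        (ENNReal.ofReal q) volume ≤ C * ∑' j, eLpNorm (h j) (ENNReal.ofReal q) (sigma n) := by
  obtain ⟨c', rfl⟩ : ∃ c', n = c' + 2 := ⟨n - 2, by omega⟩
  have hc1 : 1 ≤ c' := by omega
  have e0 : ((c' + 2 : ℕ) : ℝ) - 1 = (c' : ℝ) + 1 := by push_cast; ring
  rw [e0] at hq
  obtain ⟨C, hC⟩ := Pool.Agent.N303.SH.single hc1 hδ0 hδ1 hc hq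
  have hq1 : 1 ≤ q := by
    have : 0 < 2 / (((c' : ℝ) + 1) * (1 - δ)) := by
      have : 0 < 1 - δ := by linarith
      positivity
    linarith
  refine ⟨C, fun K η h hK hL hD hs => ?_⟩
  refine Pool.Agent.N303.SH.super (n := c' + 2) (q := q) hq1 (C := C) (η := η) (h := h) hL
    (fun j => ?_) hs
  refine hC (K j) ?_ (h j) (hL j) ?_
  · intro k hk k' hk' hlt
    have := hK j k hk k' hk' hlt
    linarith
  · intro k hk i
    have h1 := Pool.Agent.N303.SH.e_mem (n := c' + 2) k i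
    obtain ⟨P, hP, hPe⟩ := Pool.Agent.N303.SH.mem_P.1 (Pool.Agent.N303.SH.H_le k h1)
    have h2 : ∀ (Q : MvPolynomial (Fin (c' + 2)) ℝ) (x : Sph (c' + 2)),
        Pool.Agent.N303.SH.vC Q x = ev Q x := fun Q x => Pool.Agent.N303.SH.vC_apply Q x
    have h3 : IsHarmonic k P := by
      refine ⟨hP, fun Q hQ => ?_⟩
      have h4 := Pool.Agent.N303.SH.H_perp (j := Q.totalDegree) hQ
        (q := Pool.Agent.N303.SH.vC Q) (Pool.Agent.N303.SH.mem_P.2 ⟨Q, le_rfl, rfl⟩) h1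
      rw [Pool.Agent.N303.SH.ip_comm, ← hPe] at h4
      unfold Pool.Agent.N303.SH.ip at h4
      simp only [h2] at h4
      exact h4
    have h5 := hD j k hk P h3
    rw [← hPe]
    simp only [h2]
    exact h5

end Pool.Agent.Results.MP_6cbfb8_an.SparseHarmonics
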